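import Pool.Agent.Helper11.PV.St

/-!
# Project PV (MP_e12aa9_pr), module INT: the integral of the total influence
-/

set_option autoImplicit false

open MeasureTheory

namespace Pool.Agent.Helper57.PV

open Finset Pool.Agent.Helper82.CN Pool.Agent.Helper11.PV

theorem tINT (hRUS : StRUS) (hPHB : StPHB) : Pool.Agent.Helper11.PV.StINT := by
  intro p₀ p₁ n l h0 h01 h1
  have hd : ∀ p : ℝ, HasDerivAt (fun q : ℝ => EE q (PH l : (Sym2 (Fin n) → Bool) → ℝ)) (II l n p) p :=
    fun p => hRUS p (Sym2 (Fin n)) (PH l)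
  have hc : Continuous (fun p : ℝ => II l n p) := by
    unfold II
    refine continuous_finsetSum _ fun e _ => ?_
    refine continuous_iff_continuousAt.2 fun p => ?_
    exact (hRUS p (Sym2 (Fin n)) (DD (PH l) e)).continuousAt
  rw [intervalIntegral.integral_eq_sub_of_hasDerivAt (fun x _ => hd x) (hc.intervalIntegrable _ _)]
  have hb : ∀ ω : Sym2 (Fin n) → Bool, PH l ω ≤ (n : ℝ) := by
    intro ω
    have := (hPHB (Fin n) l).1 (gr ω)
    rw [Fintype.card_fin] at this
    unfold PH
    exact_mod_cast this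
  have h2 : EE p₁ (PH l : (Sym2 (Fin n) → Bool) → ℝ) ≤ n := by
    have := EE_mono (p := p₁) (le_trans h0 h01) h1 (F := (PH l : (Sym2 (Fin n) → Bool) → ℝ))
      (G := fun _ => (n : ℝ)) hb
    rwa [EE_const] at this
  have h3 : 0 ≤ EE p₀ (PH l : (Sym2 (Fin n) → Bool) → ℝ) :=
    EE_nonneg h0 (le_trans h01 h1) (fun ω => Nat.cast_nonneg _)
  linarith

end Pool.Agent.Helper57.PV
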